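import Mathlib

/-!
PROJECT LT (MP_274814_nt), block Z: closed submonoids of a real vector space which contain a
cocompact subgroup.
-/

namespace Pool.Agent.Helper35.LZ

open Filter Topology

variable {E : Type*} [NormedAddCommGroup E] [NormedSpace ℝ E] [FiniteDimensional ℝ E]

/-- Near `0` the closed submonoid `G` lies in the subspace `h`, if `h` contains all rays in `G`. -/
theorem near_zero (G : AddSubmonoid E) (hG : IsClosed (G : Set E)) (h : Submodule ℝ E)
    (hr : ∀ v, (∀ t : ℝ, 0 ≤ t → t • v ∈ G) → v ∈ h) (K : Submodule ℝ E)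
    (hK : Disjoint h K) :
    ∃ ε : ℝ, 0 < ε ∧ ∀ g ∈ G, g ∈ K → ‖g‖ < ε → g = 0 := by
  by_contra hcon
  push Not at hcon
  have h1 : ∀ n : ℕ, ∃ g ∈ G, g ∈ K ∧ ‖g‖ < 1 / ((n : ℝ) + 1) ∧ g ≠ 0 := by
    intro n
    exact hcon _ (by positivity)
  choose g hgG hgK hgn hg0 using h1
  have hpos : ∀ n, 0 < ‖g n‖ := fun n => norm_pos_iff.2 (hg0 n)
  have hlim : Tendsto (fun n => ‖g n‖) atTop (𝓝 0) :=
    squeeze_zero (fun n => norm_nonneg _) (fun n => (hgn n).le)
      tendsto_one_div_add_atTop_nhds_zero_nat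
  have hsph : ∀ n, (‖g n‖⁻¹ • g n) ∈ Metric.sphere (0 : E) 1 := by
    intro n
    rw [mem_sphere_zero_iff_norm, norm_smul, norm_inv, norm_norm, inv_mul_cancel₀ (hpos n).ne']
  obtain ⟨u, hu, φ, hφ, hlu⟩ := (isCompact_sphere (0 : E) 1).tendsto_subseq hsph
  have huK : u ∈ K := by
    have hcl : IsClosed (K : Set E) := K.closed_of_finiteDimensional
    exact hcl.mem_of_tendsto hlu (Eventually.of_forall fun n => K.smul_mem _ (hgK _))
  have huG : u ∈ h := by
    refine hr u fun t ht => ?_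
    have hlim2 : Tendsto (fun n => (⌊t / ‖g (φ n)‖⌋₊ : ℕ) • g (φ n)) atTop (𝓝 (t • u)) := by
      have h2 : Tendsto (fun n => t • (‖g (φ n)‖⁻¹ • g (φ n))) atTop (𝓝 (t • u)) :=
        hlu.const_smul t
      have h3 : Tendsto (fun n => (⌊t / ‖g (φ n)‖⌋₊ : ℕ) • g (φ n) -
          t • (‖g (φ n)‖⁻¹ • g (φ n))) atTop (𝓝 0) := by
        refine squeeze_zero_norm (fun n => ?_) (hlim.comp hφ.tendsto_atTop)
        change _ ≤ ‖g (φ n)‖
        have h4 : (⌊t / ‖g (φ n)‖⌋₊ : ℕ) • g (φ n) - t • (‖g (φ n)‖⁻¹ • g (φ n)) =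
            ((⌊t / ‖g (φ n)‖⌋₊ : ℝ) - t / ‖g (φ n)‖) • g (φ n) := by
          rw [sub_smul, smul_smul, Nat.cast_smul_eq_nsmul, div_eq_mul_inv]
        rw [h4, norm_smul]
        have h5 : ‖(⌊t / ‖g (φ n)‖⌋₊ : ℝ) - t / ‖g (φ n)‖‖ ≤ 1 := by
          have h6 : 0 ≤ t / ‖g (φ n)‖ := by positivity
          have h7 := Nat.floor_le h6
          have h8 := Nat.lt_floor_add_one (t / ‖g (φ n)‖)
          rw [Real.norm_eq_abs, abs_le]
          constructor <;> linarith
        calc _ ≤ 1 * ‖g (φ n)‖ := by gcongr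
          _ = _ := one_mul _
      have h4 := h3.add h2
      simpa using h4
    exact hG.mem_of_tendsto hlim2 (Eventually.of_forall fun n => G.nsmul_mem (hgG _) _)
  have h5 : u = 0 := by
    have h6 := Submodule.disjoint_def.1 hK u huG huK
    exact h6
  rw [h5, mem_sphere_zero_iff_norm, norm_zero] at hu
  exact zero_ne_one hu

/-- Let `G` be a closed submonoid that contains a cocompact subgroup `Γ`, and `h` a subspace in `G`
that contains all rays in `G`. Then `h` is spanned by `Γ ∩ h`. -/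
theorem lattice_monoid (G : AddSubmonoid E) (hG : IsClosed (G : Set E)) (h : Submodule ℝ E)
    (hh : ∀ v ∈ h, v ∈ G) (hr : ∀ v, (∀ t : ℝ, 0 ≤ t → t • v ∈ G) → v ∈ h) (Γ : Set E)
    (hΓ : ∀ x ∈ Γ, x ∈ G) (hsub : ∀ x ∈ Γ, ∀ y ∈ Γ, x - y ∈ Γ)
    (hc : ∃ R : ℝ, ∀ z, ∃ γ ∈ Γ, ‖z - γ‖ ≤ R) :
    ∀ v ∈ h, v ∈ Submodule.span ℝ (Γ ∩ (h : Set E)) := by
  intro v hv
  obtain ⟨K, hK⟩ := Submodule.exists_isCompl h
  obtain ⟨ε, hε, hε2⟩ := near_zero G hG h hr K hK.disjoint
  obtain ⟨R, hR⟩ := hc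
  let π : E →ₗ[ℝ] E := K.subtype.comp (Submodule.projectionOnto K h hK.symm)
  have hπK : ∀ x, π x ∈ K := fun x => Submodule.coe_mem _
  have hπh : ∀ x, x - π x ∈ h := by
    intro x
    have h1 : Submodule.projectionOnto K h hK.symm (x - π x) = 0 := by
      rw [map_sub, sub_eq_zero]
      exact (Submodule.projectionOnto_apply_left hK.symm _).symm
    exact (Submodule.projectionOnto_apply_eq_zero_iff hK.symm).1 h1
  have hπ0 : ∀ x ∈ h, π x = 0 := by
    intro x hx
    change ((Submodule.projectionOnto K h hK.symm x : K) : E) = 0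
    rw [(Submodule.projectionOnto_apply_eq_zero_iff hK.symm).2 hx]
    rfl
  have hπc : Continuous π := π.continuous_of_finiteDimensional
  choose γ hγ hγR using fun n : ℕ => hR ((n : ℝ) • v)
  have hx : ∀ n, π (γ n) = π (γ n - (n : ℝ) • v) := by
    intro n
    rw [map_sub, hπ0 _ (h.smul_mem _ hv), sub_zero]
  have hcomp : IsCompact (π '' Metric.closedBall 0 R) := (isCompact_closedBall 0 R).image hπc
  have hmem : ∀ n, π (γ n) ∈ π '' Metric.closedBall 0 R := by
    intro n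
    rw [hx n]
    refine ⟨_, ?_, rfl⟩
    rw [mem_closedBall_zero_iff, ← norm_neg, neg_sub]
    exact hγR n
  obtain ⟨x, -, φ, hφ, hlx⟩ := hcomp.tendsto_subseq hmem
  have hcau := hlx.cauchySeq
  rw [Metric.cauchySeq_iff'] at hcau
  obtain ⟨N, hN⟩ := hcau ε hε
  have key : ∀ n ≥ N, γ (φ n) - γ (φ N) ∈ h := by
    intro n hn
    have h1 := hN n hn
    rw [dist_eq_norm] at h1
    change ‖π (γ (φ n)) - π (γ (φ N))‖ < ε at h1
    rw [← map_sub] at h1
    have h2 : π (γ (φ n) - γ (φ N)) ∈ G := by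
      have h3 : π (γ (φ n) - γ (φ N)) = (γ (φ n) - γ (φ N)) +
          -((γ (φ n) - γ (φ N)) - π (γ (φ n) - γ (φ N))) := by abel
      rw [h3]
      exact G.add_mem (hΓ _ (hsub _ (hγ _) _ (hγ _))) (hh _ (h.neg_mem (hπh _)))
    have h3 := hε2 _ h2 (hπK _) h1
    have h4 := hπh (γ (φ n) - γ (φ N))
    rwa [h3, sub_zero] at h4
  have hcl : IsClosed ((Submodule.span ℝ (Γ ∩ (h : Set E)) : Submodule ℝ E) : Set E) :=
    Submodule.closed_of_finiteDimensional _
  have hlim : Tendsto (fun n : ℕ => (((φ (n + N + 1) : ℝ) - φ N))⁻¹ •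
      (γ (φ (n + N + 1)) - γ (φ N))) atTop (𝓝 v) := by
    have hd : ∀ n : ℕ, (n : ℝ) + 1 ≤ (φ (n + N + 1) : ℝ) - φ N := by
      intro n
      have h1 : ∀ k, φ N + k ≤ φ (N + k) := by
        intro k
        induction k with
        | zero => exact le_rfl
        | succ k ih =>
          have := hφ (show N + k < N + (k + 1) by omega)
          omega
      have h2 := h1 (n + 1)
      rw [show N + (n + 1) = n + N + 1 by omega] at h2
      have h3 : ((φ N + (n + 1) : ℕ) : ℝ) ≤ (φ (n + N + 1) : ℝ) := by exact_mod_cast h2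
      push_cast at h3
      linarith
    rw [tendsto_iff_norm_sub_tendsto_zero]
    refine squeeze_zero (g := fun n : ℕ => (2 * R) * (1 / ((n : ℝ) + 1))) (fun n => norm_nonneg _)
      (fun n => ?_) ?_
    · have h1 := hd n
      have hpos : (0 : ℝ) < (φ (n + N + 1) : ℝ) - φ N := by
        have : (0 : ℝ) ≤ n := Nat.cast_nonneg n
        linarith
      have h2 : (((φ (n + N + 1) : ℝ) - φ N))⁻¹ • (γ (φ (n + N + 1)) - γ (φ N)) - v =
          (((φ (n + N + 1) : ℝ) - φ N))⁻¹ • (((φ N : ℝ) • v - γ (φ N)) -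
            ((φ (n + N + 1) : ℝ) • v - γ (φ (n + N + 1)))) := by
        have h3 : v = (((φ (n + N + 1) : ℝ) - φ N))⁻¹ • (((φ (n + N + 1) : ℝ) - φ N) • v) := by
          rw [smul_smul, inv_mul_cancel₀ hpos.ne', one_smul]
        conv_lhs => rw [h3]
        rw [← smul_sub]
        congr 1
        rw [sub_smul]
        abel
      rw [h2, norm_smul, norm_inv, Real.norm_eq_abs, abs_of_pos hpos]
      have h4 : ‖((φ N : ℝ) • v - γ (φ N)) - ((φ (n + N + 1) : ℝ) • v - γ (φ (n + N + 1)))‖ ≤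
          2 * R := by
        refine (norm_sub_le _ _).trans ?_
        have h5 := hγR (φ N)
        have h6 := hγR (φ (n + N + 1))
        linarith
      have hR0 : 0 ≤ 2 * R := (norm_nonneg _).trans h4
      rw [mul_comm]
      refine mul_le_mul h4 ?_ (by positivity) hR0
      rw [← one_div]
      have h7 : (0 : ℝ) < (n : ℝ) + 1 := by positivity
      exact one_div_le_one_div_of_le h7 h1
    · have h1 := tendsto_one_div_add_atTop_nhds_zero_nat (𝕜 := ℝ)
      have h2 := h1.const_mul (2 * R)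
      rwa [mul_zero] at h2
  refine hcl.mem_of_tendsto hlim (Eventually.of_forall fun n => ?_)
  refine Submodule.smul_mem _ _ (Submodule.subset_span ⟨hsub _ (hγ _) _ (hγ _), ?_⟩)
  refine key _ ?_
  omega

/-- The lines in a closed subgroup. -/
def lines (G : AddSubgroup E) : Submodule ℝ E where
  carrier := {v | ∀ t : ℝ, t • v ∈ G}
  zero_mem' := fun t => by
    rw [smul_zero]
    exact G.zero_mem
  add_mem' := fun {a b} ha hb t => by
    rw [smul_add]
    exact G.add_mem (ha t) (hb t)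
  smul_mem' := fun c a ha t => by
    rw [smul_smul]
    exact ha _

omit [FiniteDimensional ℝ E] in
theorem mem_lines (G : AddSubgroup E) {v : E} : v ∈ lines G ↔ ∀ t : ℝ, t • v ∈ G := Iff.rfl

/-- A closed subgroup that contains a cocompact subgroup. -/
theorem lattice_group (G : AddSubgroup E) (hG : IsClosed (G : Set E)) (Γ : AddSubgroup E)
    (hΓ : Γ ≤ G) (hc : ∃ R : ℝ, ∀ z, ∃ γ ∈ Γ, ‖z - γ‖ ≤ R) :
    ∀ v ∈ lines G, v ∈ Submodule.span ℝ ((Γ : Set E) ∩ (lines G : Set E)) := by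
  refine lattice_monoid G.toAddSubmonoid hG (lines G) (fun v hv => ?_) (fun v hv t => ?_) (Γ : Set E)
    (fun x hx => hΓ hx) (fun x hx y hy => Γ.sub_mem hx hy) hc
  · have h1 := hv 1
    rwa [one_smul] at h1
  · rcases le_total 0 t with ht | ht
    · exact hv t ht
    · have h1 := hv (-t) (by linarith)
      rw [neg_smul] at h1
      exact G.neg_mem_iff.1 h1

end Pool.Agent.Helper35.LZ
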