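import Pool.Agent.Helper34.LT.Df

/-!
PROJECT LT (MP_274814_nt), block Z: growth of theta functions, the Schwarz lemma.
-/

namespace Pool.Agent.Helper35.LZ

open Filter Topology Pool.Agent.Helper34.LT

noncomputable section

variable {ι A : Type} [Fintype ι] [AddCommGroup A] {γ : A →+ (ι → ℂ)}
  {l : A →+ ((ι → ℂ) →ₗ[ℂ] ℂ)} {c : A → ℂ} {k : ℕ} {F : (ι → ℂ) → ℂ}

/-- The logarithm of the absolute value of the multiplier. -/
def mu (l : A →+ ((ι → ℂ) →ₗ[ℂ] ℂ)) (c : A → ℂ) (a : A) (p : ι → ℂ) : ℝ := (l a p + c a).re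

theorem norm_mult (hF : Theta γ l c k F) (a : A) (z : ι → ℂ) :
    ‖F (z + γ a)‖ = Real.exp (k * mu l c a z) * ‖F z‖ := by
  rw [hF.2, norm_mul, Complex.norm_exp]
  congr 2
  rw [mu, ← Complex.ofReal_natCast, Complex.re_ofReal_mul]

theorem norm_mult_one (hF : Theta γ l c 1 F) (a : A) (z : ι → ℂ) :
    ‖F (z + γ a)‖ = Real.exp (mu l c a z) * ‖F z‖ := by
  rw [norm_mult hF, Nat.cast_one, one_mul]

theorem mu_add (hb : ∀ p, ∃ F, Theta γ l c 1 F ∧ F p ≠ 0) (a b : A) (p : ι → ℂ) :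
    mu l c (a + b) p = mu l c a (p + γ b) + mu l c b p := by
  obtain ⟨F, hF, hp⟩ := hb p
  have h1 := norm_mult_one hF (a + b) p
  have h2 : p + γ (a + b) = (p + γ b) + γ a := by
    rw [map_add]
    abel
  rw [h2, norm_mult_one hF, norm_mult_one hF, ← mul_assoc, ← Real.exp_add] at h1
  have h3 := mul_right_cancel₀ (norm_ne_zero_iff.2 hp) h1
  exact (Real.exp_injective h3).symm

theorem mu_zero (hb : ∀ p, ∃ F, Theta γ l c 1 F ∧ F p ≠ 0) (p : ι → ℂ) : mu l c 0 p = 0 := by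
  have h1 := mu_add hb 0 0 p
  rw [map_zero, add_zero, add_zero] at h1
  linarith

theorem mu_neg (hb : ∀ p, ∃ F, Theta γ l c 1 F ∧ F p ≠ 0) (b : A) (p : ι → ℂ) :
    mu l c (-b) (p + γ b) = -mu l c b p := by
  have h1 := mu_add hb (-b) b p
  rw [neg_add_cancel, mu_zero hb] at h1
  linarith

omit [Fintype ι] in
theorem mu_sub (b : A) (p q : ι → ℂ) : mu l c b p - mu l c b q = (l b (p - q)).re := by
  rw [mu, mu, map_sub, Complex.add_re, Complex.add_re, Complex.sub_re]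
  ring

theorem mu_le (hb : ∀ p, ∃ F, Theta γ l c 1 F ∧ F p ≠ 0) (R : ℝ) :
    ∃ K : ℝ, ∀ p ∈ Metric.closedBall (0 : ι → ℂ) (2 * R), ∀ b, ‖γ b‖ ≤ R → mu l c b p ≤ K := by
  refine (isCompact_closedBall (0 : ι → ℂ) (2 * R)).induction_on
    (p := fun s => ∃ K : ℝ, ∀ p ∈ s, ∀ b, ‖γ b‖ ≤ R → mu l c b p ≤ K)
    ⟨0, fun p hp => absurd hp (Set.notMem_empty p)⟩ ?_ ?_ ?_
  · rintro s t hst ⟨K, hK⟩
    exact ⟨K, fun p hp => hK p (hst hp)⟩
  · rintro s t ⟨K, hK⟩ ⟨K', hK'⟩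
    refine ⟨max K K', ?_⟩
    rintro p (hp | hp) b hbR
    · exact (hK p hp b hbR).trans (le_max_left _ _)
    · exact (hK' p hp b hbR).trans (le_max_right _ _)
  · intro p₀ _
    obtain ⟨F, hF, hp₀⟩ := hb p₀
    have hcont : Continuous F := hF.1.continuous
    obtain ⟨M, hM⟩ := (isCompact_closedBall (0 : ι → ℂ) (3 * R)).exists_bound_of_continuousOn
      hcont.continuousOn
    have hδ : 0 < ‖F p₀‖ / 2 := half_pos (norm_pos_iff.2 hp₀)
    have hU : {p | ‖F p₀‖ / 2 < ‖F p‖} ∈ 𝓝 p₀ :=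
      (isOpen_lt continuous_const hcont.norm).mem_nhds (half_lt_self (norm_pos_iff.2 hp₀))
    refine ⟨Metric.closedBall (0 : ι → ℂ) (2 * R) ∩ {p | ‖F p₀‖ / 2 < ‖F p‖}, ?_,
      Real.log (max M 1 / (‖F p₀‖ / 2)), ?_⟩
    · exact inter_mem self_mem_nhdsWithin (mem_nhdsWithin_of_mem_nhds hU)
    · rintro p ⟨hp, hpF⟩ b hbR
      rw [Set.mem_ofPred_eq] at hpF
      have hFp : 0 < ‖F p‖ := hδ.trans hpF
      have h1 := norm_mult_one hF b p
      have h2 : ‖F (p + γ b)‖ ≤ max M 1 := by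
        refine (hM _ ?_).trans (le_max_left _ _)
        rw [mem_closedBall_zero_iff] at hp ⊢
        refine (norm_add_le _ _).trans ?_
        linarith
      have h3 : Real.exp (mu l c b p) ≤ max M 1 / (‖F p₀‖ / 2) := by
        rw [le_div_iff₀ hδ]
        calc Real.exp (mu l c b p) * (‖F p₀‖ / 2) ≤ Real.exp (mu l c b p) * ‖F p‖ := by
              gcongr
          _ = ‖F (p + γ b)‖ := h1.symm
          _ ≤ _ := h2
      rw [← Real.log_exp (mu l c b p)]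
      exact Real.log_le_log (Real.exp_pos _) h3

theorem mu_bdd (hb : ∀ p, ∃ F, Theta γ l c 1 F ∧ F p ≠ 0) (R : ℝ) :
    ∃ K : ℝ, ∀ b, ‖γ b‖ ≤ R → ∀ p : ι → ℂ, ‖p‖ ≤ R → |mu l c b p| ≤ K := by
  obtain ⟨K, hK⟩ := mu_le hb R
  refine ⟨K, fun b hbR p hp => ?_⟩
  have hR : 0 ≤ R := (norm_nonneg _).trans hp
  rw [abs_le]
  constructor
  · have h1 := hK (p + γ b) (by
      rw [mem_closedBall_zero_iff]
      refine (norm_add_le _ _).trans ?_
      linarith) (-b) (by rw [map_neg, norm_neg]; exact hbR)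
    rw [mu_neg hb] at h1
    linarith
  · exact hK p (by
      rw [mem_closedBall_zero_iff]
      linarith) b hbR

theorem mu_lin (hb : ∀ p, ∃ F, Theta γ l c 1 F ∧ F p ≠ 0) (R : ℝ) :
    ∃ K : ℝ, 0 ≤ K ∧ ∀ b, ‖γ b‖ ≤ R → ∀ q : ι → ℂ, |mu l c b q| ≤ K * (1 + ‖q‖) := by
  obtain ⟨K, hK⟩ := mu_bdd hb (max R 1)
  have hR1 : (1 : ℝ) ≤ max R 1 := le_max_right _ _
  have hK0 : 0 ≤ K := by
    refine (abs_nonneg _).trans (hK 0 ?_ 0 ?_)
    · rw [map_zero, norm_zero]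
      linarith
    · rw [norm_zero]
      linarith
  refine ⟨3 * K, by linarith, fun b hbR q => ?_⟩
  have hbR' : ‖γ b‖ ≤ max R 1 := hbR.trans (le_max_left _ _)
  have h0 := hK b hbR' 0 (by rw [norm_zero]; linarith)
  by_cases hq : q = 0
  · rw [hq, norm_zero]
    linarith
  · have hqn : 0 < ‖q‖ := norm_pos_iff.2 hq
    have h1 := hK b hbR' (((‖q‖⁻¹ : ℝ) : ℂ) • q) (by
      rw [norm_smul, Complex.norm_real, norm_inv, norm_norm, inv_mul_cancel₀ hqn.ne']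
      exact hR1)
    have h2 := mu_sub (l := l) (c := c) b (((‖q‖⁻¹ : ℝ) : ℂ) • q) 0
    rw [sub_zero, map_smul, smul_eq_mul, Complex.re_ofReal_mul] at h2
    have h3 := mu_sub (l := l) (c := c) b q 0
    rw [sub_zero] at h3
    have h4 : |(l b q).re| ≤ 2 * K * ‖q‖ := by
      have h5 : (l b q).re = ‖q‖ * (‖q‖⁻¹ * (l b q).re) := by
        rw [← mul_assoc, mul_inv_cancel₀ hqn.ne', one_mul]
      rw [h5, ← h2, abs_mul, abs_norm, mul_comm]
      refine mul_le_mul_of_nonneg_right ?_ hqn.le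
      refine (abs_sub _ _).trans ?_
      linarith
    have h5 : mu l c b q = (l b q).re + mu l c b 0 := by linarith
    rw [h5]
    refine (abs_add_le _ _).trans ?_
    nlinarith

theorem mu_growth (hb : ∀ p, ∃ F, Theta γ l c 1 F ∧ F p ≠ 0)
    (hc : ∃ R : ℝ, ∀ z, ∃ a, ‖z - γ a‖ ≤ R) :
    ∃ C R₀ : ℝ, 0 ≤ C ∧ 0 ≤ R₀ ∧ ∀ z, ∃ a, ‖z - γ a‖ ≤ R₀ ∧
      mu l c a (z - γ a) ≤ C * (1 + ‖z‖) ^ 2 := by
  obtain ⟨R, hR⟩ := hc
  have hR0 : 0 ≤ R := by
    obtain ⟨a, ha⟩ := hR 0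
    exact (norm_nonneg _).trans ha
  obtain ⟨K, hK0, hK⟩ := mu_lin hb (2 * R + 1)
  have key : ∀ (n : ℕ) (z : ι → ℂ), ‖z‖ ≤ n → ∃ a, ‖z - γ a‖ ≤ R ∧ ∀ w : ι → ℂ, ‖w‖ ≤ R →
      mu l c a w ≤ K * (((n : ℝ) + 1) * (n + 1 + 2 * R)) := by
    intro n
    induction n with
    | zero =>
      intro z hz
      obtain ⟨a, ha⟩ := hR z
      refine ⟨a, ha, fun w hw => ?_⟩
      have hz0 : z = 0 := by
        rw [← norm_le_zero_iff]
        simpa using hz
      have h1 : ‖γ a‖ ≤ 2 * R + 1 := by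
        rw [hz0, zero_sub, norm_neg] at ha
        linarith
      have h2 := (le_abs_self _).trans (hK a h1 w)
      refine h2.trans (mul_le_mul_of_nonneg_left ?_ hK0)
      push_cast
      linarith
    | succ n ih =>
      intro z hz
      have hn : (0 : ℝ) < (n : ℝ) + 1 := by positivity
      let z' : ι → ℂ := (((n : ℝ) / (n + 1) : ℝ) : ℂ) • z
      have hz' : ‖z'‖ ≤ n := by
        rw [norm_smul, Complex.norm_real, Real.norm_eq_abs, abs_of_nonneg (by positivity)]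
        push_cast at hz
        calc (n : ℝ) / (n + 1) * ‖z‖ ≤ (n : ℝ) / (n + 1) * (n + 1) := by gcongr
          _ = n := by field_simp
      have hzz : ‖z - z'‖ ≤ 1 := by
        have h1 : z - z' = (((1 / ((n : ℝ) + 1)) : ℝ) : ℂ) • z := by
          have h2 : z - z' = ((1 : ℂ) - (((n : ℝ) / (n + 1) : ℝ) : ℂ)) • z := by
            rw [sub_smul, one_smul]
          rw [h2]
          congr 1
          rw [← Complex.ofReal_one, ← Complex.ofReal_sub]
          congr 1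
          field_simp
          ring
        rw [h1, norm_smul, Complex.norm_real, Real.norm_eq_abs, abs_of_nonneg (by positivity)]
        push_cast at hz
        calc 1 / ((n : ℝ) + 1) * ‖z‖ ≤ 1 / ((n : ℝ) + 1) * (n + 1) := by gcongr
          _ = 1 := by field_simp
      obtain ⟨a', ha', hB⟩ := ih z' hz'
      obtain ⟨a, ha⟩ := hR z
      refine ⟨a, ha, fun w hw => ?_⟩
      have h1 : ‖γ (a - a')‖ ≤ 2 * R + 1 := by
        have h2 : γ (a - a') = (z' - γ a') - (z - γ a) + (z - z') := by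
          rw [map_sub]
          abel
        rw [h2]
        refine (norm_add_le _ _).trans ?_
        have h3 := norm_sub_le (z' - γ a') (z - γ a)
        linarith
      have h2 := mu_add hb (a - a') a' w
      rw [sub_add_cancel] at h2
      have h3 := (le_abs_self _).trans (hK (a - a') h1 (w + γ a'))
      have h4 : ‖w + γ a'‖ ≤ n + 2 * R := by
        have h5 : w + γ a' = w + z' - (z' - γ a') := by abel
        rw [h5]
        have h6 := norm_sub_le (w + z') (z' - γ a')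
        have h7 := norm_add_le w z'
        linarith
      have h5 := hB w hw
      have h6 : K * (1 + ‖w + γ a'‖) ≤ K * (1 + (n + 2 * R)) := by gcongr
      rw [h2]
      push_cast
      nlinarith
  refine ⟨4 * K * (1 + R), R, by positivity, hR0, fun z => ?_⟩
  obtain ⟨a, ha, h1⟩ := key ⌈‖z‖⌉₊ z (Nat.le_ceil _)
  refine ⟨a, ha, (h1 _ ha).trans ?_⟩
  have h2 : (⌈‖z‖⌉₊ : ℝ) < ‖z‖ + 1 := Nat.ceil_lt_add_one (norm_nonneg _)
  have h3 : (0 : ℝ) ≤ ⌈‖z‖⌉₊ := Nat.cast_nonneg _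
  have h4 : ((⌈‖z‖⌉₊ : ℝ) + 1) * (⌈‖z‖⌉₊ + 1 + 2 * R) ≤ (‖z‖ + 2) * (‖z‖ + 2 + 2 * R) := by
    have := norm_nonneg z
    refine mul_le_mul (by linarith) (by linarith) (by linarith) (by linarith)
  calc K * (((⌈‖z‖⌉₊ : ℝ) + 1) * (⌈‖z‖⌉₊ + 1 + 2 * R))
      ≤ K * ((‖z‖ + 2) * (‖z‖ + 2 + 2 * R)) := by gcongr
    _ ≤ K * ((2 * (1 + ‖z‖)) * (2 * (1 + R) * (1 + ‖z‖))) := by
        have := norm_nonneg z
        have h5 : ‖z‖ + 2 + 2 * R ≤ 2 * (1 + R) * (1 + ‖z‖) := by nlinarith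
        have h6 : ‖z‖ + 2 ≤ 2 * (1 + ‖z‖) := by linarith
        gcongr
    _ = _ := by ring

/-- Growth. -/
theorem growth (hb : ∀ p, ∃ F, Theta γ l c 1 F ∧ F p ≠ 0)
    (hc : ∃ R : ℝ, ∀ z, ∃ a, ‖z - γ a‖ ≤ R) :
    ∃ C R₀ : ℝ, 0 ≤ C ∧ 0 ≤ R₀ ∧ ∀ (k : ℕ) (F : (ι → ℂ) → ℂ), Theta γ l c k F →
      ∀ z, ∃ w, ‖w‖ ≤ R₀ ∧ ‖F z‖ ≤ Real.exp (C * k * (1 + ‖z‖) ^ 2) * ‖F w‖ := by
  obtain ⟨C, R₀, hC, hR₀, h⟩ := mu_growth hb hc
  refine ⟨C, R₀, hC, hR₀, fun k F hF z => ?_⟩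
  obtain ⟨a, ha, h1⟩ := h z
  refine ⟨z - γ a, ha, ?_⟩
  have h2 := norm_mult hF a (z - γ a)
  rw [sub_add_cancel] at h2
  rw [h2]
  refine mul_le_mul_of_nonneg_right (Real.exp_le_exp.2 ?_) (norm_nonneg _)
  calc (k : ℝ) * mu l c a (z - γ a) ≤ k * (C * (1 + ‖z‖) ^ 2) := by gcongr
    _ = _ := by ring

/-! ### The Schwarz lemma -/

theorem schwarz_one {g : ℂ → ℂ} (hg : Differentiable ℂ g) {N : ℕ}
    (h0 : ∀ j < N, iteratedDeriv j g 0 = 0) {ρ M : ℝ} (hρ : 1 ≤ ρ)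
    (hM : ∀ s : ℂ, ‖s‖ = ρ → ‖g s‖ ≤ M) : ‖g 1‖ * ρ ^ N ≤ M := by
  have han : AnalyticAt ℂ g 0 := hg.analyticAt 0
  have h1 : (N : ℕ∞) ≤ analyticOrderAt g 0 :=
    (natCast_le_analyticOrderAt_iff_iteratedDeriv_eq_zero han).2 h0
  obtain ⟨h, hh, hgh⟩ := (natCast_le_analyticOrderAt han).1 h1
  have hρ0 : 0 < ρ := by linarith
  let H : ℂ → ℂ := fun s => if s = 0 then h 0 else g s / s ^ N
  have hd : Differentiable ℂ H := by
    intro s
    by_cases hs : s = 0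
    · rw [hs]
      have h2 : H =ᶠ[𝓝 0] h := by
        filter_upwards [hgh] with t ht
        by_cases ht0 : t = 0
        · simp only [H, ht0, if_true]
        · simp only [H, ht0, if_false]
          rw [ht, sub_zero, smul_eq_mul, mul_div_cancel_left₀ _ (pow_ne_zero _ ht0)]
      exact (h2.differentiableAt_iff).2 hh.differentiableAt
    · have h2 : H =ᶠ[𝓝 s] fun t => g t / t ^ N := by
        filter_upwards [isOpen_ne.mem_nhds hs] with t ht
        simp only [H, if_neg ht]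
      refine (h2.differentiableAt_iff).2 ?_
      exact (hg s).div (differentiableAt_id.pow N) (pow_ne_zero _ hs)
  have h2 : ‖H 1‖ ≤ M / ρ ^ N := by
    refine Complex.norm_le_of_forall_mem_frontier_norm_le (U := Metric.ball 0 ρ)
      Metric.isBounded_ball hd.diffContOnCl ?_ ?_
    · intro z hz
      rw [frontier_ball _ hρ0.ne', mem_sphere_zero_iff_norm] at hz
      have hz0 : z ≠ 0 := by
        rintro rfl
        rw [norm_zero] at hz
        linarith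
      simp only [H, if_neg hz0]
      rw [norm_div, norm_pow, hz]
      gcongr
      exact hM z hz
    · rw [closure_ball _ hρ0.ne', mem_closedBall_zero_iff, norm_one]
      exact hρ
  have h3 : H 1 = g 1 := by
    simp only [H, one_ne_zero, if_false, one_pow, div_one]
  rw [h3, le_div_iff₀ (by positivity)] at h2
  exact h2

/-- The order of vanishing at `0` of a theta function that is not identically `0`. -/
theorem schwarz (hb : ∀ p, ∃ F, Theta γ l c 1 F ∧ F p ≠ 0)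
    (hc : ∃ R : ℝ, ∀ z, ∃ a, ‖z - γ a‖ ≤ R) :
    ∃ C : ℝ, 0 ≤ C ∧ ∀ (k : ℕ) (F : (ι → ℂ) → ℂ), Theta γ l c k F → (∃ z, F z ≠ 0) → ∀ N : ℕ,
      (∀ v : ι → ℂ, ∀ j < N, iteratedDeriv j (fun s : ℂ => F (s • v)) 0 = 0) →
        (N : ℝ) ≤ C * k := by
  obtain ⟨C, R₀, hC, hR₀, h⟩ := growth hb hc
  refine ⟨C * (1 + Real.exp 1 * R₀) ^ 2, by positivity, fun k F hF hne N hN => ?_⟩
  have hcont : Continuous F := hF.1.continuous
  -- the maximum on the ball
  obtain ⟨w₀, hw₀, hmax⟩ := (isCompact_closedBall (0 : ι → ℂ) R₀).exists_isMaxOn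
    ⟨0, by rw [mem_closedBall_zero_iff, norm_zero]; exact hR₀⟩ hcont.norm.continuousOn
  rw [mem_closedBall_zero_iff] at hw₀
  have hmax' : ∀ w, ‖w‖ ≤ R₀ → ‖F w‖ ≤ ‖F w₀‖ := fun w hw =>
    hmax (mem_closedBall_zero_iff.2 hw)
  have hpos : 0 < ‖F w₀‖ := by
    obtain ⟨z, hz⟩ := hne
    obtain ⟨w, hw, h1⟩ := h k F hF z
    have h2 : 0 < ‖F z‖ := norm_pos_iff.2 hz
    have h3 : 0 < ‖F w‖ := by
      by_contra hcon
      have h4 : ‖F w‖ = 0 := le_antisymm (not_lt.1 hcon) (norm_nonneg _)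
      rw [h4, mul_zero] at h1
      linarith
    exact h3.trans_le (hmax' w hw)
  have hg : Differentiable ℂ fun s : ℂ => F (s • w₀) :=
    hF.1.comp (differentiable_id.smul_const w₀)
  have h1 := schwarz_one hg (hN w₀) (ρ := Real.exp 1)
    (M := Real.exp (C * k * (1 + Real.exp 1 * R₀) ^ 2) * ‖F w₀‖)
    (Real.one_le_exp zero_le_one) (fun s hs => by
      obtain ⟨w, hw, h2⟩ := h k F hF (s • w₀)
      refine h2.trans ?_
      have h3 : ‖s • w₀‖ ≤ Real.exp 1 * R₀ := by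
        rw [norm_smul, hs]
        gcongr
      have h4 := hmax' w hw
      gcongr)
  rw [one_smul, mul_comm] at h1
  have h2 := le_of_mul_le_mul_right h1 hpos
  rw [← Real.exp_nat_mul, mul_one, Real.exp_le_exp] at h2
  calc (N : ℝ) ≤ C * k * (1 + Real.exp 1 * R₀) ^ 2 := h2
    _ = _ := by ring

end

end Pool.Agent.Helper35.LZ
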