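import Pool.Agent.Helper63.LT.Ze
import Pool.Agent.Helper35.LZ.Gr

/-!
PROJECT LT (MP_274814_nt), block Z: the dimension of the spaces of theta functions.
-/

namespace Pool.Agent.Helper35.LZ

open Filter Topology Pool.Agent.Helper34.LT Pool.Agent.Helper63.LT

noncomputable section

variable {ι A : Type} [Fintype ι] [AddCommGroup A] (γ : A →+ (ι → ℂ))
  (l : A →+ ((ι → ℂ) →ₗ[ℂ] ℂ)) (c : A → ℂ)

/-- The space of theta functions of level `k`. -/
def ThS (k : ℕ) : Submodule ℂ ((ι → ℂ) → ℂ) where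
  carrier := {F | Theta γ l c k F}
  zero_mem' := ⟨differentiable_const 0, fun a z => by
    change (0 : ℂ) = _ * 0
    rw [mul_zero]⟩
  add_mem' := fun {F G} hF hG => ⟨hF.1.add hG.1, fun a z => by
    change F (z + γ a) + G (z + γ a) = _ * (F z + G z)
    rw [hF.2, hG.2]
    ring⟩
  smul_mem' := fun t F hF => ⟨hF.1.const_smul t, fun a z => by
    change t • F (z + γ a) = _ * (t • F z)
    rw [hF.2, smul_eq_mul, smul_eq_mul]
    ring⟩

variable {γ l c}

theorem mem_ThS {k : ℕ} {F : (ι → ℂ) → ℂ} : F ∈ ThS γ l c k ↔ Theta γ l c k F := Iff.rfl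

/-- The jet of order `N` at `0`. -/
def jet (N : ℕ) : Ent ι →ₗ[ℂ] ((ι → Fin (N + 1)) → ℂ) where
  toFun F α := evE 0 ((cE (Pi.basisFun ℂ ι)).pw (Finsupp.equivFunOnFinite.symm fun i => (α i : ℕ)) F)
  map_add' F G := by
    funext α
    rw [map_add, map_add]
    rfl
  map_smul' t F := by
    funext α
    rw [map_smul, map_smul]
    rfl

theorem jet_zero {N : ℕ} {F : Ent ι} (h : jet N F = 0) (v : ι → ℂ) (j : ℕ) (hj : j ≤ N) :
    iteratedDeriv j (fun s : ℂ => (F : (ι → ℂ) → ℂ) (s • v)) 0 = 0 := by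
  have h1 := iter_line F 0 v j 0
  simp only [zero_add, zero_smul] at h1
  rw [h1]
  refine coeff_van (Pi.basisFun ℂ ι) F N (fun α hα => ?_) v j hj
  have hle : ∀ i, α i < N + 1 := by
    intro i
    have h2 : α i ≤ α.degree := by
      rw [Finsupp.degree_eq_sum]
      exact Finset.single_le_sum (f := fun i => α i) (fun i _ => Nat.zero_le _) (Finset.mem_univ i)
    omega
  have h2 := congrFun h fun i => (⟨α i, hle i⟩ : Fin (N + 1))
  have h3 : (Finsupp.equivFunOnFinite.symm fun i => ((⟨α i, hle i⟩ : Fin (N + 1)) : ℕ)) = α := by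
    ext i
    rfl
  change evE 0 ((cE (Pi.basisFun ℂ ι)).pw (Finsupp.equivFunOnFinite.symm
    fun i => ((⟨α i, hle i⟩ : Fin (N + 1)) : ℕ)) F) = 0 at h2
  rwa [h3] at h2

/-- The dimension of the space of theta functions of level `k`. -/
theorem dim_ThS (hb : ∀ p, ∃ F, Theta γ l c 1 F ∧ F p ≠ 0)
    (hc : ∃ R : ℝ, ∀ z, ∃ a, ‖z - γ a‖ ≤ R) :
    ∃ C : ℝ, 0 < C ∧ ∀ k : ℕ, Module.Finite ℂ (ThS γ l c k) ∧
      (Module.finrank ℂ (ThS γ l c k) : ℝ) ≤ C * ((k : ℝ) + 1) ^ Fintype.card ι := by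
  classical
  obtain ⟨C, hC, h⟩ := schwarz hb hc
  refine ⟨(C + 2) ^ Fintype.card ι, by positivity, fun k => ?_⟩
  let N : ℕ := ⌊C * k⌋₊
  let J : ThS γ l c k →ₗ[ℂ] ((ι → Fin (N + 1)) → ℂ) :=
    { toFun := fun F => jet N ⟨F.1, F.2.1⟩
      map_add' := fun F G => by rw [← map_add]; rfl
      map_smul' := fun t F => by rw [RingHom.id_apply, ← map_smul]; rfl }
  have hJ : Function.Injective J := by
    rw [← LinearMap.ker_eq_bot, Submodule.eq_bot_iff]
    intro F hF
    by_contra hne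
    have h1 : ∃ z, F.1 z ≠ 0 := by
      by_contra hcon
      push Not at hcon
      exact hne (Subtype.ext (funext hcon))
    have h2 := h k F.1 F.2 h1 (N + 1) (fun v j hj =>
      jet_zero (F := ⟨F.1, F.2.1⟩) (LinearMap.mem_ker.1 hF) v j (by omega))
    have h3 : C * k < N + 1 := Nat.lt_floor_add_one _
    push_cast at h2
    linarith
  refine ⟨Module.Finite.of_injective J hJ, ?_⟩
  have h1 := LinearMap.finrank_le_finrank_of_injective hJ
  rw [Module.finrank_fintype_fun_eq_card, Fintype.card_fun, Fintype.card_fin] at h1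
  have h2 : (Module.finrank ℂ (ThS γ l c k) : ℝ) ≤ ((N : ℝ) + 1) ^ Fintype.card ι := by
    exact_mod_cast h1
  refine h2.trans ?_
  rw [← mul_pow]
  have h3 : (N : ℝ) ≤ C * k := Nat.floor_le (by positivity)
  have h4 : (0 : ℝ) ≤ k := Nat.cast_nonneg k
  refine pow_le_pow_left₀ (by positivity) ?_ _
  nlinarith

end

end Pool.Agent.Helper35.LZ
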