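import Pool.Agent.Helper63.LT.Zg
import Pool.Agent.Helper35.LZ.Gd

/-!
PROJECT LT (MP_274814_nt), block Z: the hypotheses of the algebraic part, from the growth of theta functions.
-/

namespace Pool.Agent.Helper35.LZ

open Filter Topology Pool.Agent.Helper34.LT Pool.Agent.Helper63.LT

noncomputable section

variable {ι A : Type} [Fintype ι] [AddCommGroup A] {γ : A →+ (ι → ℂ)}
  {l : A →+ ((ι → ℂ) →ₗ[ℂ] ℂ)} {c : A → ℂ}

/-- The Schwarz lemma, with a natural constant. -/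
theorem schwarz_nat (hb : ∀ p, ∃ F, Theta γ l c 1 F ∧ F p ≠ 0)
    (hc : ∃ R : ℝ, ∀ z, ∃ a, ‖z - γ a‖ ≤ R) :
    ∃ C : ℕ, ∀ (k : ℕ), ∀ F ∈ Pool.Agent.Helper63.LT.ThS γ l c k, F ≠ 0 →
      ∀ (b : Module.Basis ι ℂ (ι → ℂ)) (N : ℕ),
        (∀ α : ι →₀ ℕ, α.degree ≤ N → evE 0 ((cE b).pw α F) = 0) → N + 1 ≤ C * k := by
  obtain ⟨C, hC, h⟩ := schwarz hb hc
  refine ⟨⌈C⌉₊, fun k F hF hne b N hN => ?_⟩
  have h1 : ∃ z, (F : (ι → ℂ) → ℂ) z ≠ 0 := by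
    by_contra hcon
    push Not at hcon
    exact hne (Subtype.ext (funext hcon))
  have h2 := h k F hF h1 (N + 1) (fun v j hj => by
    have h3 := iter_line F 0 v j 0
    simp only [zero_add, zero_smul] at h3
    rw [h3]
    exact coeff_van b F N hN v j (by omega))
  have h3 : ((N + 1 : ℕ) : ℝ) ≤ ((⌈C⌉₊ * k : ℕ) : ℝ) := by
    rw [Nat.cast_mul]
    exact h2.trans (mul_le_mul_of_nonneg_right (Nat.le_ceil C) (Nat.cast_nonneg k))
  exact_mod_cast h3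

/-- The dimension of the space of theta functions of level `k`, with a natural constant. -/
theorem dim_nat (hb : ∀ p, ∃ F, Theta γ l c 1 F ∧ F p ≠ 0)
    (hc : ∃ R : ℝ, ∀ z, ∃ a, ‖z - γ a‖ ≤ R) :
    ∃ C : ℕ, ∀ k : ℕ, Module.Finite ℂ (Pool.Agent.Helper63.LT.ThS γ l c k) ∧
      Module.finrank ℂ (Pool.Agent.Helper63.LT.ThS γ l c k) ≤ C * (k + 1) ^ Fintype.card ι := by
  classical
  obtain ⟨C, h⟩ := schwarz_nat hb hc
  refine ⟨(C + 1) ^ Fintype.card ι, fun k => ?_⟩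
  let J : Pool.Agent.Helper63.LT.ThS γ l c k →ₗ[ℂ] ((ι → Fin (C * k + 1)) → ℂ) :=
    (jet (C * k)).comp (Pool.Agent.Helper63.LT.ThS γ l c k).subtype
  have hJ : Function.Injective J := by
    intro F₁ F₂ h12
    by_contra hne
    set F : Ent ι := (F₁ : Ent ι) - (F₂ : Ent ι) with hF
    have hF0 : F ∈ Pool.Agent.Helper63.LT.ThS γ l c k := Submodule.sub_mem _ F₁.2 F₂.2
    have hne' : F ≠ 0 := fun h0 => hne (Subtype.ext (sub_eq_zero.1 h0))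
    have h1 : jet (C * k) F = 0 := by
      rw [hF, map_sub, sub_eq_zero]
      exact h12
    have h2 := h k F hF0 hne' (Pi.basisFun ℂ ι) (C * k) (fun α hα => ?_)
    · omega
    · have hle : ∀ i, α i < C * k + 1 := by
        intro i
        have h3 : α i ≤ α.degree := by
          rw [Finsupp.degree_eq_sum]
          exact Finset.single_le_sum (f := fun i => α i) (fun i _ => Nat.zero_le _)
            (Finset.mem_univ i)
        omega
      have h3 := congrFun h1 fun i => (⟨α i, hle i⟩ : Fin (C * k + 1))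
      have h4 : (Finsupp.equivFunOnFinite.symm
          fun i => ((⟨α i, hle i⟩ : Fin (C * k + 1)) : ℕ)) = α := by
        ext i
        rfl
      change evE 0 ((cE (Pi.basisFun ℂ ι)).pw (Finsupp.equivFunOnFinite.symm
        fun i => ((⟨α i, hle i⟩ : Fin (C * k + 1)) : ℕ)) F) = 0 at h3
      rwa [h4] at h3
  refine ⟨Module.Finite.of_injective J hJ, ?_⟩
  have h1 := LinearMap.finrank_le_finrank_of_injective hJ
  rw [Module.finrank_fintype_fun_eq_card, Fintype.card_fun, Fintype.card_fin] at h1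
  refine h1.trans ?_
  rw [← mul_pow]
  refine Nat.pow_le_pow_left ?_ _
  nlinarith [Nat.zero_le C, Nat.zero_le k]

/-- `x ↦ F x * G (- x)` has no common zeros. -/
theorem hb_cc (hb : ∀ p, ∃ F, Theta γ l c 1 F ∧ F p ≠ 0) (p : ι → ℂ) :
    ∃ F ∈ Pool.Agent.Helper63.LT.ThS γ l (cc c) 2, (F : (ι → ℂ) → ℂ) p ≠ 0 := by
  obtain ⟨F, hF, hFp⟩ := hb p
  obtain ⟨G, hG, hGp⟩ := hb (-p)
  refine ⟨tr 0 ⟨F, hF.1⟩ * rf 0 ⟨G, hG.1⟩,
    ThS_pair' (k := 1) γ l c (F := ⟨F, hF.1⟩) (G := ⟨G, hG.1⟩) hF hG 0, ?_⟩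
  change F (0 + p) * G (0 - p) ≠ 0
  rw [zero_add, zero_sub]
  exact mul_ne_zero hFp hGp

theorem ThS_two (k : ℕ) : Pool.Agent.Helper63.LT.ThS γ ((2 : ℕ) • l) (fun a => 2 * cc c a) k =
    Pool.Agent.Helper63.LT.ThS γ l (cc c) (2 * k) := by
  ext F
  rw [Pool.Agent.Helper63.LT.mem_ThS, Pool.Agent.Helper63.LT.mem_ThS]
  have h : ∀ a z, (k : ℂ) * ((((2 : ℕ) • l) a) z + 2 * cc c a) =
      ((2 * k : ℕ) : ℂ) * (l a z + cc c a) := by
    intro a z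
    have h1 : (((2 : ℕ) • l) a) z = 2 * l a z := by
      rw [AddMonoidHom.smul_apply, two_nsmul, LinearMap.add_apply, two_mul]
    rw [h1, Nat.cast_mul, Nat.cast_ofNat]
    ring
  simp only [h]

/-- The dimension of the space of theta functions of the second kind. -/
theorem dim_two (hb : ∀ p, ∃ F, Theta γ l c 1 F ∧ F p ≠ 0)
    (hc : ∃ R : ℝ, ∀ z, ∃ a, ‖z - γ a‖ ≤ R) :
    ∃ C : ℕ, ∀ k : ℕ, Module.Finite ℂ (Pool.Agent.Helper63.LT.ThS γ l (cc c) (2 * k)) ∧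
      Module.finrank ℂ (Pool.Agent.Helper63.LT.ThS γ l (cc c) (2 * k)) ≤
        C * (k + 1) ^ Fintype.card ι := by
  have hb' : ∀ p, ∃ F, Theta γ ((2 : ℕ) • l) (fun a => 2 * cc c a) 1 F ∧ F p ≠ 0 := by
    intro p
    obtain ⟨F, hF, hp⟩ := hb_cc hb p
    have h1 : F ∈ Pool.Agent.Helper63.LT.ThS γ ((2 : ℕ) • l) (fun a => 2 * cc c a) 1 := by
      rw [ThS_two]
      exact hF
    exact ⟨F, h1, hp⟩
  obtain ⟨C, h⟩ := dim_nat hb' hc
  refine ⟨C, fun k => ?_⟩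
  have h1 := h k
  rw [ThS_two] at h1
  exact h1

/-- All hypotheses at once; the constants do not depend on the basis `X.b` and on `X.u0`. -/
theorem LD_hyp (hb : ∀ p, ∃ F, Theta γ l c 1 F ∧ F p ≠ 0)
    (hc : ∃ R : ℝ, ∀ z, ∃ a, ‖z - γ a‖ ≤ R) :
    ∃ C0 C1 C2 : ℕ, ∀ X : LD ι A, X.γ = γ → X.l = l → X.c = c →
      (∀ k, Module.Finite ℂ (X.T k)) ∧
      (∀ k, Module.finrank ℂ (X.T k) ≤ C2 * (k + 1) ^ Fintype.card ι) ∧
      (∀ k, Module.Finite ℂ (Pool.Agent.Helper63.LT.ThS X.γ X.l (cc X.c) (2 * k))) ∧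
      (∀ k, Module.finrank ℂ (Pool.Agent.Helper63.LT.ThS X.γ X.l (cc X.c) (2 * k)) ≤
        C0 * (k + 1) ^ Fintype.card ι) ∧
      ∀ (k : ℕ), ∀ F ∈ X.T k, F ≠ 0 → ∀ N : ℕ,
        (∀ α : ι →₀ ℕ, α.degree ≤ N → evE 0 ((cE X.b).pw α F) = 0) → N + 1 ≤ C1 * k := by
  obtain ⟨C0, h0⟩ := dim_two hb hc
  obtain ⟨C1, h1⟩ := schwarz_nat hb hc
  obtain ⟨C2, h2⟩ := dim_nat hb hc
  refine ⟨C0, C1, C2, ?_⟩
  rintro ⟨γ', l', c', b, u0, hu, hu0⟩ rfl rfl rfl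
  exact ⟨fun k => (h2 k).1, fun k => (h2 k).2, fun k => (h0 k).1, fun k => (h0 k).2,
    fun k F hF hne N hN => h1 k F hF hne b N hN⟩

end

end Pool.Agent.Helper35.LZ
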