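import Mathlib

/-!
PROJECT LT (MP_274814_nt), block Z: lemmas of commutative algebra.
-/

namespace Pool.Agent.Helper35.LZ

open Cardinal

/-! ### Points of an algebra of countable dimension -/

/-- A field extension of `ℂ` of countable dimension is trivial. -/
theorem bij_of_countable {K : Type} [Field K] [Algebra ℂ K] {s : Set K} (hs : s.Countable)
    (hsp : Submodule.span ℂ s = ⊤) : Function.Bijective (algebraMap ℂ K) := by
  have hr : Module.rank ℂ K ≤ ℵ₀ := by
    rw [← rank_top, ← hsp]
    exact (rank_span_le s).trans (Cardinal.le_aleph0_iff_set_countable.2 hs)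
  have hint : Algebra.IsIntegral ℂ K := by
    refine ⟨fun x => ?_⟩
    rw [← isAlgebraic_iff_isIntegral]
    by_contra hx
    have h1 := (Transcendental.linearIndependent_sub_inv (F := ℂ) hx).cardinal_le_rank
    have h2 : #ℂ ≤ ℵ₀ := h1.trans hr
    rw [Cardinal.mk_complex] at h2
    exact absurd h2 (not_le.2 Cardinal.aleph0_lt_continuum)
  exact IsAlgClosed.algebraMap_bijective_of_isIntegral

/-- The Nullstellensatz for algebras of countable dimension. -/
theorem null {A : Type} [CommRing A] [Algebra ℂ A] {s : Set A} (hs : s.Countable)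
    (hsp : Submodule.span ℂ s = ⊤) {b : A} (hb : ¬ IsNilpotent b) :
    ∃ ψ : A →ₐ[ℂ] ℂ, ψ b ≠ 0 := by
  let R := Localization.Away b
  have hnt : Nontrivial R := by
    by_contra h
    rw [not_nontrivial_iff_subsingleton] at h
    have h1 : (algebraMap A R 1) = algebraMap A R 0 := Subsingleton.elim _ _
    rw [IsLocalization.eq_iff_exists (Submonoid.powers b) R] at h1
    obtain ⟨⟨_, n, rfl⟩, hn⟩ := h1
    exact hb ⟨n, by simpa using hn⟩
  obtain ⟨m, hm⟩ := Ideal.exists_maximal R
  let K := R ⧸ m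
  let _ : Field K := Ideal.Quotient.field m
  let f : A →ₐ[ℂ] K := (Ideal.Quotient.mkₐ ℂ m).comp (IsScalarTower.toAlgHom ℂ A R)
  have hfb : IsUnit (f b) := by
    have h1 : IsUnit (algebraMap A R b) :=
      IsLocalization.map_units R (⟨b, Submonoid.mem_powers b⟩ : Submonoid.powers b)
    exact h1.map (Ideal.Quotient.mkₐ ℂ m)
  have hfb0 : f b ≠ 0 := hfb.ne_zero
  -- a countable spanning set
  let t : Set K := ⋃ n : ℕ, (fun a => f a * (f b)⁻¹ ^ n) '' s
  have ht : t.Countable := Set.countable_iUnion fun n => hs.image _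
  have htsp : Submodule.span ℂ t = ⊤ := by
    rw [eq_top_iff]
    rintro x -
    obtain ⟨y, rfl⟩ := Ideal.Quotient.mk_surjective x
    obtain ⟨⟨a, ⟨_, n, rfl⟩⟩, hy⟩ := IsLocalization.surj (Submonoid.powers b) y
    have h1 : Ideal.Quotient.mk m y * f b ^ n = f a := by
      have h2 := congrArg (Ideal.Quotient.mk m) hy
      rw [map_mul] at h2
      simpa [f] using h2
    have h2 : Ideal.Quotient.mk m y = f a * (f b)⁻¹ ^ n := by
      rw [← h1, mul_assoc, ← mul_pow, mul_inv_cancel₀ hfb0, one_pow, mul_one]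
    rw [h2]
    have h3 : a ∈ Submodule.span ℂ s := by
      rw [hsp]
      trivial
    refine Submodule.span_induction (p := fun a _ => f a * (f b)⁻¹ ^ n ∈ Submodule.span ℂ t)
      ?_ ?_ ?_ ?_ h3
    · intro a ha
      exact Submodule.subset_span (Set.mem_iUnion.2 ⟨n, a, ha, rfl⟩)
    · rw [map_zero, zero_mul]
      exact Submodule.zero_mem _
    · intro a a' _ _ h h'
      rw [map_add, add_mul]
      exact Submodule.add_mem _ h h'
    · intro r a _ h
      rw [map_smul, smul_mul_assoc]
      exact Submodule.smul_mem _ _ h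
  have hbij := bij_of_countable ht htsp
  let e : ℂ ≃ₐ[ℂ] K := AlgEquiv.ofBijective (Algebra.ofId ℂ K) hbij
  refine ⟨e.symm.toAlgHom.comp f, ?_⟩
  change e.symm (f b) ≠ 0
  rw [Ne, map_eq_zero_iff _ e.symm.injective]
  exact hfb0

/-- The version used: `p` prime, `b ∉ p`; a point of `A` that kills `p` but not `b`. -/
theorem null_prime {A : Type} [CommRing A] [Algebra ℂ A] {s : Set A} (hs : s.Countable)
    (hsp : Submodule.span ℂ s = ⊤) {p : Ideal A} (hp : p.IsPrime) {b : A} (hb : b ∉ p) :
    ∃ ψ : A →ₐ[ℂ] ℂ, (∀ x ∈ p, ψ x = 0) ∧ ψ b ≠ 0 := by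
  let f : A →ₐ[ℂ] A ⧸ p := Ideal.Quotient.mkₐ ℂ p
  have h1 : (f '' s).Countable := hs.image _
  have h2 : Submodule.span ℂ (f '' s) = ⊤ := by
    have h3 := Submodule.map_span f.toLinearMap s
    rw [hsp, Submodule.map_top] at h3
    change Submodule.span ℂ (f.toLinearMap '' s) = ⊤
    rw [← h3, LinearMap.range_eq_top]
    exact Ideal.Quotient.mk_surjective
  have h3 : ¬ IsNilpotent (f b) := by
    rw [isNilpotent_iff_eq_zero]
    intro h
    exact hb (Ideal.Quotient.eq_zero_iff_mem.1 h)
  obtain ⟨ψ, hψ⟩ := null h1 h2 h3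
  refine ⟨ψ.comp f, fun x hx => ?_, hψ⟩
  change ψ (f x) = 0
  have h4 : f x = 0 := Ideal.Quotient.eq_zero_iff_mem.2 hx
  rw [h4, map_zero]

/-! ### Minimal primes -/

/-- The elements of a minimal prime over `I`. -/
theorem mem_minimal {A : Type*} [CommRing A] {I p : Ideal A} (hp : p ∈ I.minimalPrimes) {x : A}
    (hx : x ∈ p) : ∃ h ∉ p, ∃ N : ℕ, h * x ^ N ∈ I := by
  have hpp : p.IsPrime := hp.1.1
  by_contra hcon
  push Not at hcon
  let S : Submonoid A :=
    { carrier := {y | ∃ h ∉ p, ∃ N : ℕ, y = h * x ^ N}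
      one_mem' := ⟨1, fun h => hpp.ne_top ((Ideal.eq_top_iff_one p).2 h), 0, by simp⟩
      mul_mem' := by
        rintro _ _ ⟨h, hh, N, rfl⟩ ⟨h', hh', N', rfl⟩
        refine ⟨h * h', fun h1 => ?_, N + N', by ring⟩
        rcases hpp.mem_or_mem h1 with h2 | h2
        · exact hh h2
        · exact hh' h2 }
  have hd : Disjoint (I : Set A) S := by
    rw [Set.disjoint_left]
    rintro y hy ⟨h, hh, N, rfl⟩
    exact hcon h hh N hy
  obtain ⟨P, hP, hIP, hPd⟩ := Ideal.exists_le_prime_disjoint I S hd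
  rw [Set.disjoint_left] at hPd
  have h1 : P ≤ p := by
    intro y hy
    by_contra hyp
    exact hPd hy ⟨y, hyp, 0, by simp⟩
  have h2 : x ∉ P := fun h => hPd h ⟨1, fun h => hpp.ne_top ((Ideal.eq_top_iff_one p).2 h), 1, by simp⟩
  exact h2 (hp.2 ⟨hP, hIP⟩ h1 hx)

/-! ### Chains of primes -/

/-- Elements of the steps of a chain of primes are algebraically independent. -/
theorem chain_indep (r : ℕ) : ∀ (A : Type) [CommRing A] [IsDomain A] [Algebra ℂ A]
    (p : ℕ → Ideal A) (y : ℕ → A), p 0 = ⊥ → (∀ i ≤ r, (p i).IsPrime) →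
    (∀ i < r, p i ≤ p (i + 1)) → (∀ i < r, y i ∈ p (i + 1) ∧ y i ∉ p i) →
    AlgebraicIndependent ℂ (fun i : Fin r => y i) := by
  induction r with
  | zero =>
    intro A _ _ _ p y _ _ _ _
    exact algebraicIndependent_empty_type
  | succ r ih =>
    intro A _ _ _ p y h0 hp hle hy
    have hp1 : (p 1).IsPrime := hp 1 (by omega)
    have hmono : ∀ i, i ≤ r → p 1 ≤ p (i + 1) := by
      intro i
      induction i with
      | zero => exact fun _ => le_rfl
      | succ i ih2 => exact fun h => (ih2 (by omega)).trans (hle (i + 1) (by omega))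
    -- the quotient
    let π : A →+* A ⧸ p 1 := Ideal.Quotient.mk (p 1)
    have hπ : Function.Surjective π := Ideal.Quotient.mk_surjective
    have hker : RingHom.ker π = p 1 := Ideal.mk_ker
    have hmem : ∀ i, i ≤ r → ∀ x, π x ∈ (p (i + 1)).map π ↔ x ∈ p (i + 1) := by
      intro i hi x
      rw [← Ideal.mem_comap, Ideal.comap_map_of_surjective' _ hπ, hker, sup_eq_left.2 (hmono i hi)]
    have h1 := ih (A ⧸ p 1) (fun i => (p (i + 1)).map π)
      (fun i => π (y (i + 1))) ?_ ?_ ?_ ?_
    · rw [AlgebraicIndependent, injective_iff_map_eq_zero] at h1 ⊢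
      let φ : MvPolynomial (Fin r) ℂ →ₐ[ℂ] A :=
        MvPolynomial.aeval fun i : Fin r => y ((i : ℕ) + 1)
      have hφ : ∀ P, φ P ∈ p 1 → P = 0 := by
        intro P hP
        apply h1
        have h2 : π (φ P) = 0 := Ideal.Quotient.eq_zero_iff_mem.2 hP
        have h3 : (MvPolynomial.aeval fun i : Fin r => π (y ((i : ℕ) + 1))) =
            (Ideal.Quotient.mkₐ ℂ (p 1)).comp φ := by
          refine MvPolynomial.algHom_ext fun i => ?_
          simp [φ, π]
        rw [h3]
        exact h2
      have key : ∀ n, ∀ Q : Polynomial (MvPolynomial (Fin r) ℂ), Q.natDegree ≤ n →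
          Q.eval₂ (φ : MvPolynomial (Fin r) ℂ →+* A) (y 0) = 0 → Q = 0 := by
        intro n
        induction n with
        | zero =>
          intro Q hQ hQ0
          rw [Polynomial.eq_C_of_natDegree_le_zero hQ, Polynomial.eval₂_C] at hQ0
          have h3 := hφ (Q.coeff 0) (by
            change (φ : MvPolynomial (Fin r) ℂ →+* A) _ ∈ p 1
            rw [hQ0]
            exact Ideal.zero_mem _)
          rw [Polynomial.eq_C_of_natDegree_le_zero hQ, h3, map_zero]
        | succ n ihn =>
          intro Q hQ hQ0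
          have h2 := Polynomial.divX_mul_X_add Q
          have h3 : Q.divX.eval₂ (φ : MvPolynomial (Fin r) ℂ →+* A) (y 0) * y 0 +
              φ (Q.coeff 0) = 0 := by
            rw [← hQ0]
            conv_rhs => rw [← h2]
            rw [Polynomial.eval₂_add, Polynomial.eval₂_mul, Polynomial.eval₂_X,
              Polynomial.eval₂_C]
            rfl
          have h4 : φ (Q.coeff 0) ∈ p 1 := by
            rw [← neg_eq_iff_add_eq_zero] at h3
            rw [← h3]
            exact (p 1).neg_mem (Ideal.mul_mem_left _ _ (hy 0 (by omega)).1)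
          have h5 := hφ _ h4
          rw [h5, map_zero, add_zero] at h3
          have h6 : y 0 ≠ 0 := by
            intro h7
            apply (hy 0 (by omega)).2
            rw [h7]
            exact Ideal.zero_mem _
          have h7 := (mul_eq_zero.1 h3).resolve_right h6
          have h8 := ihn Q.divX (by rw [Polynomial.natDegree_divX_eq_natDegree_tsub_one]; omega) h7
          rw [← h2, h8, h5, map_zero, zero_mul, add_zero]
      intro P hP
      have h2 : MvPolynomial.finSuccEquiv ℂ r P = 0 := by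
        refine key _ _ le_rfl ?_
        rw [← hP]
        let ψ : MvPolynomial (Fin (r + 1)) ℂ →ₐ[ℂ] A :=
          { toRingHom := (Polynomial.eval₂RingHom (φ : MvPolynomial (Fin r) ℂ →+* A) (y 0)).comp
              (MvPolynomial.finSuccEquiv ℂ r : MvPolynomial (Fin (r + 1)) ℂ →+* _)
            commutes' := fun c => by
              have h3 : MvPolynomial.finSuccEquiv ℂ r (algebraMap ℂ _ c) =
                algebraMap ℂ _ c := AlgEquiv.commutes _ c
              change Polynomial.eval₂ (φ : MvPolynomial (Fin r) ℂ →+* A) (y 0)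
                (MvPolynomial.finSuccEquiv ℂ r (algebraMap ℂ _ c)) = _
              rw [h3, IsScalarTower.algebraMap_apply ℂ (MvPolynomial (Fin r) ℂ) (Polynomial _),
                Polynomial.algebraMap_eq, Polynomial.eval₂_C]
              exact φ.commutes c }
        change ψ P = _
        congr 1
        refine MvPolynomial.algHom_ext fun i => ?_
        change Polynomial.eval₂ (φ : MvPolynomial (Fin r) ℂ →+* A) (y 0)
          (MvPolynomial.finSuccEquiv ℂ r (MvPolynomial.X i)) = _
        refine Fin.cases ?_ (fun j => ?_) i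
        · rw [MvPolynomial.finSuccEquiv_X_zero, Polynomial.eval₂_X]
          simp
        · rw [MvPolynomial.finSuccEquiv_X_succ, Polynomial.eval₂_C]
          simp [φ]
      exact (map_eq_zero_iff _ (MvPolynomial.finSuccEquiv ℂ r).injective).1 h2
    · change (p (0 + 1)).map π = ⊥
      rw [zero_add, Ideal.map_eq_bot_iff_le_ker, hker]
    · intro i hi
      have := hp (i + 1) (by omega)
      exact Ideal.map_isPrime_of_surjective hπ (by rw [hker]; exact hmono i hi)
    · intro i hi
      exact Ideal.map_mono (hle (i + 1) (by omega))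
    · intro i hi
      refine ⟨(hmem (i + 1) (by omega) _).2 (hy (i + 1) (by omega)).1, ?_⟩
      rw [hmem i (by omega)]
      exact (hy (i + 1) (by omega)).2


/-- The dimension of a ring with a filtration of polynomial growth. -/
theorem no_chain {A : Type} [CommRing A] [IsDomain A] [Algebra ℂ A] (m : ℕ) (C : ℝ)
    (W : ℕ → Submodule ℂ A) (hfin : ∀ k, FiniteDimensional ℂ (W k))
    (hdim : ∀ k, 1 ≤ k → (Module.finrank ℂ (W k) : ℝ) ≤ C * (k : ℝ) ^ m)
    (hmul : ∀ k l, ∀ x ∈ W k, ∀ y ∈ W l, x * y ∈ W (k + l)) (hone : ∀ k, 1 ∈ W k)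
    (hex : ∀ x, ∃ k, x ∈ W k) (p : ℕ → Ideal A) (h0 : p 0 = ⊥)
    (hp : ∀ i ≤ m + 1, (p i).IsPrime) (hlt : ∀ i ≤ m, p i < p (i + 1)) : False := by
  classical
  have hy : ∀ i, ∃ y, i ≤ m → y ∈ p (i + 1) ∧ y ∉ p i := by
    intro i
    by_cases hi : i ≤ m
    · obtain ⟨y, h1, h2⟩ := Set.exists_of_ssubset (hlt i hi)
      exact ⟨y, fun _ => ⟨h1, h2⟩⟩
    · exact ⟨0, fun h => absurd h hi⟩
  choose y hy using hy
  have hind := chain_indep (m + 1) A p y h0 hp (fun i hi => (hlt i (by omega)).le)
    (fun i hi => hy i (by omega))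
  have hmono : ∀ k l, k ≤ l → W k ≤ W l := by
    intro k l hkl x hx
    have h1 := hmul k (l - k) x hx 1 (hone _)
    rwa [mul_one, Nat.add_sub_cancel' hkl] at h1
  -- a common level
  choose lv hlv using hex
  obtain ⟨k, hk1, hk⟩ : ∃ k, 1 ≤ k ∧ ∀ i : Fin (m + 1), y i ∈ W k := by
    refine ⟨(Finset.univ.sup fun i : Fin (m + 1) => lv (y i)) + 1, by omega, fun i => ?_⟩
    refine hmono _ _ ?_ (hlv (y i))
    have h1 := Finset.le_sup (f := fun i : Fin (m + 1) => lv (y i)) (Finset.mem_univ i)
    omega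
  have hpow : ∀ (i : Fin (m + 1)) (e : ℕ), y i ^ e ∈ W (k * e) := by
    intro i e
    induction e with
    | zero => rw [pow_zero]; exact hone _
    | succ e ih =>
      rw [pow_succ, mul_add, mul_one]
      exact hmul _ _ _ ih _ (hk i)
  have hprod : ∀ (N : ℕ) (e : Fin (m + 1) → Fin (N + 1)) (s : Finset (Fin (m + 1))),
      ∏ i ∈ s, y i ^ (e i : ℕ) ∈ W (k * N * s.card) := by
    intro N e s
    induction s using Finset.induction_on with
    | empty => rw [Finset.prod_empty]; exact hone _
    | insert a s ha ih =>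
      rw [Finset.prod_insert ha, Finset.card_insert_of_notMem ha, mul_add, mul_one,
        mul_comm (y a ^ (e a : ℕ))]
      refine hmul _ _ _ ih _ (hmono _ _ ?_ (hpow a (e a)))
      exact Nat.mul_le_mul_left _ (by have := (e a).2; omega)
  have hcount : ∀ N : ℕ, 1 ≤ N →
      ((N : ℝ) + 1) ^ (m + 1) ≤ C * ((k * N * (m + 1) : ℕ) : ℝ) ^ m := by
    intro N hN
    let f : (Fin (m + 1) → Fin (N + 1)) → W (k * N * (m + 1)) := fun e =>
      ⟨∏ i : Fin (m + 1), y i ^ (e i : ℕ), by
        have h1 := hprod N e Finset.univ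
        rwa [Finset.card_univ, Fintype.card_fin] at h1⟩
    have hli : LinearIndependent ℂ f := by
      refine LinearIndependent.of_comp (W (k * N * (m + 1))).subtype ?_
      have h1 : LinearIndependent ℂ fun e : Fin (m + 1) →₀ ℕ =>
          MvPolynomial.aeval (fun i : Fin (m + 1) => y i) (MvPolynomial.monomial e (1 : ℂ)) := by
        have h2 : LinearIndependent ℂ fun e : Fin (m + 1) →₀ ℕ =>
            (MvPolynomial.monomial e (1 : ℂ)) := by
          have h3 := (MvPolynomial.basisMonomials (Fin (m + 1)) ℂ).linearIndependent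
          rwa [MvPolynomial.coe_basisMonomials] at h3
        exact h2.map' (MvPolynomial.aeval (fun i : Fin (m + 1) => y i)).toLinearMap
          (LinearMap.ker_eq_bot.2 hind)
      let j : (Fin (m + 1) → Fin (N + 1)) → (Fin (m + 1) →₀ ℕ) := fun e =>
        Finsupp.equivFunOnFinite.symm fun i => (e i : ℕ)
      have hj : Function.Injective j := by
        intro e e' h
        funext i
        have h3 := DFunLike.congr_fun h i
        exact Fin.ext h3
      have h4 := h1.comp j hj
      convert h4 using 1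
      funext e
      change _ = MvPolynomial.aeval (fun i : Fin (m + 1) => y i) (MvPolynomial.monomial (j e) (1 : ℂ))
      rw [MvPolynomial.aeval_monomial, map_one, one_mul, Finsupp.prod_fintype _ _ (by simp)]
      rfl
    have := hfin (k * N * (m + 1))
    have h2 := hli.fintype_card_le_finrank
    rw [Fintype.card_fun, Fintype.card_fin, Fintype.card_fin] at h2
    have h3 := hdim (k * N * (m + 1)) (by
      have : 0 < k * N * (m + 1) := by positivity
      omega)
    refine le_trans ?_ h3
    exact_mod_cast h2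
  -- a large `N`
  obtain ⟨N, hN⟩ := exists_nat_gt (max 1 (|C| * ((k : ℝ) * (m + 1)) ^ m))
  have hN1 : (1 : ℝ) < N := lt_of_le_of_lt (le_max_left _ _) hN
  have hN2 : |C| * ((k : ℝ) * (m + 1)) ^ m < N := lt_of_le_of_lt (le_max_right _ _) hN
  have h1 := hcount N (by
    have : 1 < N := by exact_mod_cast hN1
    omega)
  have h2 : C * ((k * N * (m + 1) : ℕ) : ℝ) ^ m ≤ |C| * ((k : ℝ) * (m + 1)) ^ m * (N : ℝ) ^ m := by
    push_cast
    have h3 : (k : ℝ) * N * (m + 1) = (k * (m + 1)) * N := by ring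
    rw [h3, mul_pow, ← mul_assoc]
    have h4 : C ≤ |C| := le_abs_self C
    gcongr
  have h3 : |C| * ((k : ℝ) * (m + 1)) ^ m * (N : ℝ) ^ m < ((N : ℝ) + 1) ^ (m + 1) := by
    have h4 : (N : ℝ) ^ m ≤ ((N : ℝ) + 1) ^ m := by gcongr; linarith
    have h5 : (0 : ℝ) < ((N : ℝ) + 1) ^ m := by positivity
    calc |C| * ((k : ℝ) * (m + 1)) ^ m * (N : ℝ) ^ m
        ≤ N * (N : ℝ) ^ m := by gcongr
      _ ≤ N * ((N : ℝ) + 1) ^ m := by gcongr
      _ < ((N : ℝ) + 1) * ((N : ℝ) + 1) ^ m := by nlinarith
      _ = _ := by ring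
  linarith


/-- The form used in block Z. -/
theorem no_chain' {A : Type} [CommRing A] [IsDomain A] [Algebra ℂ A] (m : ℕ) (C : ℝ)
    (W : ℕ → Submodule ℂ A) (hfin : ∀ k, Module.Finite ℂ (W k))
    (hdim : ∀ k, (Module.finrank ℂ (W k) : ℝ) ≤ C * ((k : ℝ) + 1) ^ m)
    (hmono : Monotone W) (hmul : ∀ k l, ∀ x ∈ W k, ∀ y ∈ W l, x * y ∈ W (k + l))
    (hone : 1 ∈ W 0) (hex : ∀ x, ∃ k, x ∈ W k) (p : Fin (m + 2) → Ideal A) (h0 : p 0 = ⊥)
    (hp : ∀ i, (p i).IsPrime) (hlt : StrictMono p) : False := by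
  refine no_chain m (|C| * 2 ^ m) W hfin ?_ hmul (fun k => hmono (Nat.zero_le k) hone) hex
    (fun i => if h : i < m + 2 then p ⟨i, h⟩ else ⊤) ?_ ?_ ?_
  · intro k hk
    refine (hdim k).trans ?_
    have h1 : (1 : ℝ) ≤ k := by exact_mod_cast hk
    have h2 : ((k : ℝ) + 1) ^ m ≤ (2 * k) ^ m := by
      gcongr
      linarith
    calc C * ((k : ℝ) + 1) ^ m ≤ |C| * ((k : ℝ) + 1) ^ m := by
          have := le_abs_self C
          gcongr
      _ ≤ |C| * (2 * k) ^ m := by gcongr
      _ = |C| * 2 ^ m * (k : ℝ) ^ m := by rw [mul_pow]; ring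
  · rw [dif_pos (by omega)]
    exact h0
  · intro i hi
    rw [dif_pos (by omega)]
    exact hp _
  · intro i hi
    rw [dif_pos (by omega), dif_pos (by omega)]
    exact hlt (Fin.mk_lt_mk.2 (Nat.lt_succ_self i))

/-- The choice of the primes. -/
theorem choose_primes {A : Type} [CommRing A] [IsDomain A] [Algebra ℂ A] (m : ℕ) (C : ℝ)
    (W : ℕ → Submodule ℂ A) (hfin : ∀ k, Module.Finite ℂ (W k))
    (hdim : ∀ k, (Module.finrank ℂ (W k) : ℝ) ≤ C * ((k : ℝ) + 1) ^ m)
    (hmono : Monotone W) (hmul : ∀ k l, ∀ x ∈ W k, ∀ y ∈ W l, x * y ∈ W (k + l))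
    (hone : 1 ∈ W 0) (hex : ∀ x, ∃ k, x ∈ W k) (I : ℕ → Ideal A) (hI : ∀ r < m, I r ≤ I (r + 1))
    (hI0 : I 0 ≠ ⊥) (M : Ideal A) (hM : M.IsPrime) (hIM : I m ≤ M) :
    ∃ r < m, ∃ p : Ideal A, p.IsPrime ∧ p ∈ (I r).minimalPrimes ∧ I (r + 1) ≤ p ∧ p ≤ M := by
  by_contra hcon
  push Not at hcon
  -- descending choice
  have key : ∀ n ≤ m, ∃ q : ℕ → Ideal A, (∀ i ≤ n, q i ∈ (I (m - i)).minimalPrimes) ∧
      (∀ i < n, q (i + 1) < q i) ∧ ∀ i ≤ n, q i ≤ M := by
    intro n
    induction n with
    | zero =>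
      intro _
      obtain ⟨P, hP, hPM⟩ := Ideal.exists_minimalPrimes_le (I := I m) (J := M) hIM
      refine ⟨fun _ => P, ?_, ?_, ?_⟩
      · intro i hi
        obtain rfl : i = 0 := by omega
        exact hP
      · intro i hi
        omega
      · intro i _
        exact hPM
    | succ n ih =>
      intro hn
      obtain ⟨q, h1, h2, h3⟩ := ih (by omega)
      have h4 : I (m - (n + 1)) ≤ q n := by
        have h5 := hI (m - (n + 1)) (by omega)
        rw [show m - (n + 1) + 1 = m - n by omega] at h5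
        exact h5.trans (h1 n le_rfl).1.2
      have hqn : (q n).IsPrime := (h1 n le_rfl).1.1
      obtain ⟨P, hP, hPq⟩ := Ideal.exists_minimalPrimes_le (I := I (m - (n + 1))) (J := q n) h4
      have hne : P ≠ q n := by
        intro h5
        refine hcon (m - (n + 1)) (by omega) P hP.1.1 hP ?_ (hPq.trans (h3 n le_rfl))
        rw [h5, show m - (n + 1) + 1 = m - n by omega]
        exact (h1 n le_rfl).1.2
      refine ⟨fun i => if i = n + 1 then P else q i, ?_, ?_, ?_⟩
      · intro i hi
        by_cases h5 : i = n + 1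
        · simp only [h5, if_true]
          exact hP
        · simp only [h5, if_false]
          exact h1 i (by omega)
      · intro i hi
        have h5 : i ≠ n + 1 := by omega
        by_cases h6 : i = n
        · simp only [h6, if_true, if_neg (show n ≠ n + 1 by omega)]
          exact lt_of_le_of_ne hPq hne
        · simp only [if_neg h5, if_neg (show i + 1 ≠ n + 1 by omega)]
          exact h2 i (by omega)
      · intro i hi
        by_cases h5 : i = n + 1
        · simp only [h5, if_true]
          exact hPq.trans (h3 n le_rfl)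
        · simp only [h5, if_false]
          exact h3 i (by omega)
  obtain ⟨q, h1, h2, -⟩ := key m le_rfl
  refine no_chain' m C W hfin hdim hmono hmul hone hex
    (fun i => if (i : ℕ) = 0 then ⊥ else q (m + 1 - i)) ?_ ?_ ?_
  · simp
  · intro i
    by_cases h3 : (i : ℕ) = 0
    · simp only [h3, if_true]
      exact Ideal.isPrime_bot
    · simp only [h3, if_false]
      exact (h1 _ (by omega)).1.1
  · rw [Fin.strictMono_iff_lt_succ]
    intro i
    by_cases h3 : (i : ℕ) = 0
    · simp only [Fin.val_castSucc, h3, if_true, Fin.val_succ, zero_add, one_ne_zero, if_false,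
        Nat.add_sub_cancel]
      rw [bot_lt_iff_ne_bot]
      intro h4
      apply hI0
      have h5 := (h1 m le_rfl).1.2
      rw [Nat.sub_self, h4] at h5
      exact le_bot_iff.1 h5
    · have h4 : (i : ℕ) < m + 1 := i.2
      simp only [Fin.val_castSucc, h3, if_false, Fin.val_succ, Nat.succ_ne_zero]
      have h5 := h2 (m + 1 - (i + 1)) (by omega)
      rwa [show m + 1 - ((i : ℕ) + 1) + 1 = m + 1 - i by omega] at h5

/-! ### Functionals on finite dimensional spaces of functions -/

/-- A functional on a finite dimensional space of functions is a combination of evaluations. -/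
theorem functional {X : Type*} (U : Submodule ℂ (X → ℂ)) [Module.Finite ℂ U] (φ : U →ₗ[ℂ] ℂ) :
    ∃ (N : ℕ) (w : Fin N → X) (c : Fin N → ℂ), ∀ f : U, φ f = ∑ j, c j * (f : X → ℂ) (w j) := by
  classical
  let ev : X → Module.Dual ℂ U := fun x => (LinearMap.proj x).comp U.subtype
  have h1 : Submodule.span ℂ (Set.range ev) = ⊤ := by
    by_contra h
    obtain ⟨f, hf, hfD⟩ : ∃ f : U, f ≠ 0 ∧ ∀ ψ ∈ Submodule.span ℂ (Set.range ev), ψ f = 0 := by
      by_contra hcon
      push Not at hcon
      apply h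
      have h2 : (Submodule.span ℂ (Set.range ev)).dualCoannihilator = ⊥ := by
        rw [Submodule.eq_bot_iff]
        intro f hf
        by_contra hf0
        obtain ⟨ψ, hψ, hψf⟩ := hcon f hf0
        exact hψf ((Submodule.mem_dualCoannihilator _).1 hf ψ hψ)
      have h3 := Subspace.dualCoannihilator_dualAnnihilator_eq
        (W := Submodule.span ℂ (Set.range ev))
      rw [h2, Submodule.dualAnnihilator_bot] at h3
      exact h3.symm
    apply hf
    apply Subtype.ext
    funext x
    exact hfD (ev x) (Submodule.subset_span ⟨x, rfl⟩)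
  have h2 : φ ∈ Submodule.span ℂ (Set.range ev) := by
    rw [h1]
    trivial
  rw [Finsupp.mem_span_range_iff_exists_finsupp] at h2
  obtain ⟨c, hc⟩ := h2
  let e := c.support.equivFin
  refine ⟨c.support.card, fun j => (e.symm j : X), fun j => c (e.symm j : X), fun f => ?_⟩
  have h3 : φ f = ∑ x ∈ c.support, c x * (f : X → ℂ) x := by
    rw [← hc, Finsupp.sum, LinearMap.sum_apply]
    rfl
  rw [h3, ← Finset.sum_coe_sort c.support fun x => c x * (f : X → ℂ) x]
  exact (Equiv.sum_comp e.symm fun x : c.support => c x * (f : X → ℂ) x).symm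

end Pool.Agent.Helper35.LZ
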